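import Pool.Agent.helper55.GL.Spec

set_option autoImplicit false

namespace Pool.Agent.GL

open SimpleGraph

theorem SPR_aux (V : Type) [Fintype V] (H : SimpleGraph V) (c : V → Bool) (hc : Pr H c)
    (hn : ∀ a, ∃ b, H.Adj a b) (hA : ¬ Atom H) : ∃ A B : Set V, A ≠ Set.univ ∧ B ≠ Set.univ ∧
  A ∪ B = Set.univ ∧ (∀ a ∈ A, a ∉ B → ∀ b ∈ B, b ∉ A → ¬ H.Adj a b) ∧
  (∀ a ∈ A, ∃ b ∈ A, H.Adj a b) ∧ (∃ a ∈ A, ∃ b ∈ A, H.Adj a b ∧ A ∩ B ⊆ {a, b}) ∧
  (∃ a ∈ B, ∃ b ∈ B, H.Adj a b ∧ A ∩ B ⊆ {a, b}) := by
  unfold Atom at hA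
  push Not at hA
  obtain ⟨A, B, hS, hAu, hBu⟩ := hA
  have hun : ∀ x, x ∉ A → x ∈ B := by
    intro x hx
    have : x ∈ A ∪ B := by rw [hS.un]; trivial
    rcases this with h | h
    · exact absurd h hx
    · exact h
  have hun' : ∀ x, x ∉ B → x ∈ A := by
    intro x hx
    by_contra h
    exact hx (hun x h)
  have hno' : ∀ b ∈ B, b ∉ A → ∀ a ∈ A, a ∉ B → ¬ H.Adj b a := by
    intro b hb hbA a ha haB hab
    exact hS.no a ha haB b hb hbA hab.symm
  obtain ⟨x, hx⟩ : ∃ x, x ∉ B := (Set.ne_univ_iff_exists_notMem B).mp hBu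
  obtain ⟨y, hy⟩ : ∃ y, y ∉ A := (Set.ne_univ_iff_exists_notMem A).mp hAu
  have hxA := hun' x hx
  have hyB := hun y hy
  -- neighbours of private vertices
  have hpA : ∀ a ∈ A, a ∉ B → ∀ b, H.Adj a b → b ∈ A := by
    intro a ha haB b hab
    by_contra hb
    exact hS.no a ha haB b (hun b hb) hb hab
  have hpB : ∀ b ∈ B, b ∉ A → ∀ a, H.Adj b a → a ∈ B := by
    intro b hb hbA a hab
    by_contra ha
    exact hno' b hb hbA a (hun' a ha) ha hab
  by_cases h0 : ∃ v, v ∈ A ∩ B
  · obtain ⟨v, hvA, hvB⟩ := h0
    by_cases h1 : ∃ u ∈ A ∩ B, u ≠ v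
    · obtain ⟨u, ⟨huA, huB⟩, huv⟩ := h1
      have hadj : H.Adj u v := hS.cl u ⟨huA, huB⟩ v ⟨hvA, hvB⟩ huv
      have hsub : A ∩ B ⊆ {u, v} := by
        intro w hw
        by_contra hne
        have h1 : w ≠ u := fun h => hne (by simp [h])
        have h2 : w ≠ v := fun h => hne (by simp [h])
        have a1 := hc _ _ (hS.cl w hw u ⟨huA, huB⟩ h1)
        have a2 := hc _ _ (hS.cl w hw v ⟨hvA, hvB⟩ h2)
        have a3 := hc _ _ hadj
        cases hcw : c w <;> cases hcu : c u <;> cases hcv : c v <;> simp_all
      refine ⟨A, B, hAu, hBu, hS.un, hS.no, ?_, ⟨u, huA, v, hvA, hadj, hsub⟩,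
        ⟨u, huB, v, hvB, hadj, hsub⟩⟩
      intro a ha
      by_cases haB : a ∈ B
      · have := hsub ⟨ha, haB⟩
        rcases this with h | h
        · subst h; exact ⟨v, hvA, hadj⟩
        · have h' : a = v := h
          subst h'; exact ⟨u, huA, hadj.symm⟩
      · obtain ⟨b, hb⟩ := hn a
        exact ⟨b, hpA a ha haB b hb, hb⟩
    · push Not at h1
      -- A ∩ B = {v}
      have hone : ∀ w ∈ A, w ∈ B → w = v := fun w hw hw' => h1 w ⟨hw, hw'⟩
      by_cases hvnA : ∃ b ∈ A, H.Adj v b
      · by_cases hvnB : ∃ b ∈ B, H.Adj v b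
        · obtain ⟨b, hb, hvb⟩ := hvnA
          obtain ⟨b', hb', hvb'⟩ := hvnB
          refine ⟨A, B, hAu, hBu, hS.un, hS.no, ?_, ⟨v, hvA, b, hb, hvb, ?_⟩,
            ⟨v, hvB, b', hb', hvb', ?_⟩⟩
          · intro a ha
            by_cases haB : a ∈ B
            · have := hone a ha haB
              subst this
              exact ⟨b, hb, hvb⟩
            · obtain ⟨b, hb⟩ := hn a
              exact ⟨b, hpA a ha haB b hb, hb⟩
          · intro w hw
            exact Or.inl (hone w hw.1 hw.2)
          · intro w hw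
            exact Or.inl (hone w hw.1 hw.2)
        · -- no neighbour in B: remove v from B
          push Not at hvnB
          obtain ⟨b, hb, hvb⟩ := hvnA
          have hempty : A ∩ (B \ {v}) = ∅ := by
            ext w
            constructor
            · rintro ⟨h1, h2, h3⟩
              exact h3 (hone w h1 h2)
            · intro h; exact absurd h (Set.notMem_empty w)
          refine ⟨A, B \ {v}, hAu, ?_, ?_, ?_, ?_, ⟨v, hvA, b, hb, hvb, ?_⟩, ?_⟩
          · intro h
            exact hx ((Set.eq_univ_iff_forall.mp h x).1)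
          · ext w
            constructor
            · intro _; trivial
            · intro _
              by_cases hw : w ∈ A
              · exact Or.inl hw
              · exact Or.inr ⟨hun w hw, fun h => hw (by
                  have h' : w = v := h
                  rw [h']; exact hvA)⟩
          · intro a ha haB b' hb' hb'A hab
            by_cases hav : a = v
            · subst hav
              exact hvnB b' hb'.1 hab
            · exact hS.no a ha (fun h => haB ⟨h, hav⟩) b' hb'.1 hb'A hab
          · intro a ha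
            by_cases haB : a ∈ B
            · have := hone a ha haB
              subst this
              exact ⟨b, hb, hvb⟩
            · obtain ⟨b, hb⟩ := hn a
              exact ⟨b, hpA a ha haB b hb, hb⟩
          · rw [hempty]; exact Set.empty_subset _
          · obtain ⟨z, hz⟩ := hn y
            have hzB := hpB y hyB hy z hz
            have hzv : z ≠ v := by
              intro h
              subst h
              exact hvnB y hyB hz.symm
            refine ⟨y, ⟨hyB, fun h => hy (by
              have h' : y = v := h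
              rw [h']; exact hvA)⟩, z, ⟨hzB, hzv⟩, hz, ?_⟩
            rw [hempty]; exact Set.empty_subset _
      · -- no neighbour in A: remove v from A
        push Not at hvnA
        have hempty : (A \ {v}) ∩ B = ∅ := by
          ext w
          constructor
          · rintro ⟨⟨h1, h3⟩, h2⟩
            exact h3 (hone w h1 h2)
          · intro h; exact absurd h (Set.notMem_empty w)
        obtain ⟨b, hvb⟩ := hn v
        have hbB : b ∈ B := hun b (fun h => hvnA b h hvb)
        refine ⟨A \ {v}, B, ?_, hBu, ?_, ?_, ?_, ?_, ⟨v, hvB, b, hbB, hvb, ?_⟩⟩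
        · intro h
          exact hy ((Set.eq_univ_iff_forall.mp h y).1)
        · ext w
          constructor
          · intro _; trivial
          · intro _
            by_cases hw : w ∈ B
            · exact Or.inr hw
            · exact Or.inl ⟨hun' w hw, fun h => hw (by
                have h' : w = v := h
                rw [h']; exact hvB)⟩
        · intro a ha haB b' hb' hb'A hab
          by_cases hbv : b' = v
          · subst hbv
            exact hvnA a ha.1 hab.symm
          · exact hS.no a ha.1 haB b' hb' (fun h => hb'A ⟨h, hbv⟩) hab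
        · intro a ha
          have haB : a ∉ B := fun h => ha.2 (hone a ha.1 h)
          obtain ⟨b, hb⟩ := hn a
          refine ⟨b, ⟨hpA a ha.1 haB b hb, ?_⟩, hb⟩
          intro h
          have h' : b = v := h
          subst h'
          exact hvnA a ha.1 hb.symm
        · obtain ⟨z, hz⟩ := hn x
          have hzA := hpA x hxA hx z hz
          have hzv : z ≠ v := by
            intro h
            subst h
            exact hvnA x hxA hz.symm
          refine ⟨x, ⟨hxA, fun h => hx (by
              have h' : x = v := h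
              rw [h']; exact hvB)⟩, z, ⟨hzA, hzv⟩, hz, ?_⟩
          rw [hempty]; exact Set.empty_subset _
        · rw [hempty]; exact Set.empty_subset _
  · push Not at h0
    have hempty : A ∩ B = ∅ := Set.eq_empty_iff_forall_notMem.mpr h0
    have hAB : ∀ a ∈ A, a ∉ B := fun a ha hb => h0 a ⟨ha, hb⟩
    have hBA : ∀ a ∈ B, a ∉ A := fun a ha hb => h0 a ⟨hb, ha⟩
    refine ⟨A, B, hAu, hBu, hS.un, hS.no, ?_, ?_, ?_⟩
    · intro a ha
      obtain ⟨b, hb⟩ := hn a
      exact ⟨b, hpA a ha (hAB a ha) b hb, hb⟩
    · obtain ⟨z, hz⟩ := hn x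
      refine ⟨x, hxA, z, hpA x hxA hx z hz, hz, ?_⟩
      rw [hempty]; exact Set.empty_subset _
    · obtain ⟨z, hz⟩ := hn y
      refine ⟨y, hyB, z, hpB y hyB hy z hz, hz, ?_⟩
      rw [hempty]; exact Set.empty_subset _

theorem SPR : SPR_stmt := fun V _ H c hc hn hA => SPR_aux V H c hc hn hA

end Pool.Agent.GL
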